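import Pool.Agent.W593.ZT.Stm

/-! # The graph of a parent map of depth at most two -/

open scoped Classical

set_option autoImplicit false

namespace Pool.Agent.W318.ZT

open Pool.Agent.W593.ZT

/-- the graph of a parent map -/
def PG {n : ℕ} (g : Fin n) (p : Fin n → Fin n) (hp : ∀ v, v ≠ g → p v ≠ v) :
    SimpleGraph (Fin n) where
  Adj u v := (u ≠ g ∧ p u = v) ∨ (v ≠ g ∧ p v = u)
  symm := ⟨fun u v h => h.symm⟩
  loopless := ⟨fun u h => by
    rcases h with h | h
    · exact hp u h.1 h.2
    · exact hp u h.1 h.2⟩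

theorem br0 : S_BR0 := by
  intro n g p hp
  have hp1 : ∀ v, v ≠ g → p v ≠ v := fun v hv => (hp v hv).1
  set T := PG g p hp1 with hT
  have hadj : ∀ u v, T.Adj u v ↔ (u ≠ g ∧ p u = v) ∨ (v ≠ g ∧ p v = u) := fun u v => Iff.rfl
  have hadj1 : ∀ v, v ≠ g → T.Adj (p v) v := fun v hv => Or.inr ⟨hv, rfl⟩
  -- no double counting
  have hdc : ∀ u v, u ≠ g → v ≠ g → p u = v → p v = u → False := by
    intro u v hu hv h1 h2
    rcases (hp u hu).2 with h | h
    · exact hv (h1.symm.trans h)
    · rw [h1] at h
      exact hu (h2.symm.trans h)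
  have hwalk : ∀ v, ∃ w : T.Walk g v, w.length ≤ 2 := by
    intro v
    by_cases hv : v = g
    · subst hv
      exact ⟨SimpleGraph.Walk.nil, by simp⟩
    · rcases (hp v hv).2 with h | h
      · have h1 := hadj1 v hv
        rw [h] at h1
        exact ⟨h1.toWalk, by simp⟩
      · by_cases h3 : p v = g
        · have h1 := hadj1 v hv
          rw [h3] at h1
          exact ⟨h1.toWalk, by simp⟩
        · have h1 := hadj1 v hv
          have h2 := hadj1 (p v) h3
          rw [h] at h2
          exact ⟨SimpleGraph.Walk.cons h2 h1.toWalk, by simp⟩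
  have : Nonempty (Fin n) := ⟨g⟩
  have hconn : T.Connected := by
    rw [SimpleGraph.connected_iff_exists_forall_reachable]
    exact ⟨g, fun v => (hwalk v).elim fun w _ => w.reachable⟩
  have hec : T.eccent g ≤ 2 := by
    rw [SimpleGraph.eccent_le_iff]
    intro v
    obtain ⟨w, hw⟩ := hwalk v
    exact (SimpleGraph.Walk.edist_le w).trans (by exact_mod_cast hw)
  have hdiam : T.diam ≤ 4 := by
    have h1 : T.ediam ≤ 4 := by
      refine (SimpleGraph.ediam_le_two_mul_eccent (G := T) g).trans ?_
      calc 2 * T.eccent g ≤ 2 * 2 := by gcongr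
        _ = 4 := by norm_num
    rw [SimpleGraph.diam]
    exact ENat.toNat_le_of_le_natCast h1
  have htree : T.IsTree := by
    rw [SimpleGraph.isTree_iff_connected_and_card]
    refine ⟨hconn, le_antisymm ?_ hconn.card_vert_le_card_edgeSet_add_one⟩
    have h1 : Nat.card T.edgeSet ≤ Nat.card {v : Fin n // v ≠ g} := by
      refine Nat.card_le_card_of_surjective
        (fun v : {v : Fin n // v ≠ g} =>
          (⟨s(p v.1, v.1), (SimpleGraph.mem_edgeSet T).2 (hadj1 v.1 v.2)⟩ : T.edgeSet)) ?_
      rintro ⟨e, he⟩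
      induction e using Sym2.ind with
      | _ u v =>
        rcases (SimpleGraph.mem_edgeSet T).1 he with h | h
        · exact ⟨⟨u, h.1⟩, Subtype.ext (by simp [h.2, Sym2.eq_swap])⟩
        · exact ⟨⟨v, h.1⟩, Subtype.ext (by simp [h.2])⟩
    have h2 : Nat.card {v : Fin n // v ≠ g} + 1 = Nat.card (Fin n) := by
      rw [Nat.card_eq_fintype_card, Nat.card_eq_fintype_card, Fintype.card_subtype_compl,
        Fintype.card_subtype_eq]
      have : 0 < Fintype.card (Fin n) := Fintype.card_pos
      omega
    omega
  refine ⟨T, htree, hdiam, hadj, ?_⟩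
  intro G _ w hw
  have hsplit : ∀ u v : Fin n, (if T.Adj u v ∧ u < v then w u v else 0) =
      (if (u ≠ g ∧ p u = v) ∧ u < v then w u v else 0) +
      (if (v ≠ g ∧ p v = u) ∧ u < v then w u v else 0) := by
    intro u v
    by_cases h1 : u ≠ g ∧ p u = v
    · have h2 : ¬ (v ≠ g ∧ p v = u) := fun h2 => hdc u v h1.1 h2.1 h1.2 h2.2
      simp only [hadj, h1, h2, true_or, true_and, and_self, ne_eq, not_false_eq_true, false_and,
        if_false, add_zero]
    · by_cases h2 : v ≠ g ∧ p v = u
      · simp only [hadj, h1, h2, or_true, true_and, and_self, ne_eq, not_false_eq_true, false_and,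
          if_false, zero_add]
      · simp only [hadj, h1, h2, or_self, false_and, if_false, zero_add]
  calc ∑ u, ∑ v, (if T.Adj u v ∧ u < v then w u v else 0)
      = ∑ u, ∑ v, (if (u ≠ g ∧ p u = v) ∧ u < v then w u v else 0) +
        ∑ u, ∑ v, (if (v ≠ g ∧ p v = u) ∧ u < v then w u v else 0) := by
        rw [← Finset.sum_add_distrib]
        refine Finset.sum_congr rfl fun u _ => ?_
        rw [← Finset.sum_add_distrib]
        exact Finset.sum_congr rfl fun v _ => hsplit u v
    _ = ∑ u, ∑ v, (if (u ≠ g ∧ p u = v) ∧ u < v then w u v else 0) +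
        ∑ v, ∑ u, (if (v ≠ g ∧ p v = u) ∧ u < v then w u v else 0) := by
        congr 1
        exact Finset.sum_comm
    _ = ∑ u, (if u ≠ g ∧ u < p u then w u (p u) else 0) +
        ∑ v, (if v ≠ g ∧ p v < v then w v (p v) else 0) := by
        congr 1
        · refine Finset.sum_congr rfl fun u _ => ?_
          rw [Finset.sum_eq_single (p u)]
          · by_cases h : u ≠ g ∧ u < p u
            · simp [h.1, h.2]
            · rw [if_neg h, if_neg (fun h' => h ⟨h'.1.1, h'.2⟩)]
          · intro v _ hv
            rw [if_neg (fun h' => hv h'.1.2.symm)]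
          · intro h
            exact absurd (Finset.mem_univ _) h
        · refine Finset.sum_congr rfl fun v _ => ?_
          rw [Finset.sum_eq_single (p v)]
          · by_cases h : v ≠ g ∧ p v < v
            · simp [h.1, h.2, hw (p v) v]
            · rw [if_neg h, if_neg (fun h' => h ⟨h'.1.1, h'.2⟩)]
          · intro u _ hu
            rw [if_neg (fun h' => hu h'.1.2.symm)]
          · intro h
            exact absurd (Finset.mem_univ _) h
    _ = ∑ v, (if v ≠ g then w v (p v) else 0) := by
        rw [← Finset.sum_add_distrib]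
        refine Finset.sum_congr rfl fun v _ => ?_
        by_cases hv : v ≠ g
        · rcases lt_trichotomy v (p v) with h | h | h
          · rw [if_pos ⟨hv, h⟩, if_neg (fun h' => lt_asymm h h'.2), if_pos hv, add_zero]
          · exact absurd h.symm (hp1 v hv)
          · rw [if_neg (fun h' => lt_asymm h h'.2), if_pos ⟨hv, h⟩, if_pos hv, zero_add]
        · rw [if_neg (fun h' => hv h'.1), if_neg (fun h' => hv h'.1), if_neg hv, add_zero]
    _ = ∑ v ∈ Finset.univ.erase g, w v (p v) := by
        rw [← Finset.sum_filter]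
        refine Finset.sum_congr ?_ fun _ _ => rfl
        ext v
        simp

end Pool.Agent.W318.ZT
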